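import Pool.Agent.H904.PD.Main

/-!
# The SYZ conjecture is decided by arbitrarily small deformations of one polarised manifold

`T : Fibrations n` is (a component of) the moduli space of marked hyperkähler manifolds with second
Betti number `n ≥ 5`, and `T.Facts` collects the known theorems which are used (signature of the BBF
form, description of the Kähler cone by MBM classes, their boundedness, surjectivity of the period
map, finite index of the monodromy group, finiteness of the orbits of isotropic classes, Matsushita's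
theorem on deformations of pairs); see `Pool.Agent.Q50.HK.Moduli`, `Pool.Agent.Q34.HF.Fibrations`.

Let `M₀` be any manifold of this type, polarised by an ample class `h`, and `v₀` any real class of
type `(1,1)` in the boundary of the positive cone. We show that finitely many pairs `(M i, L i)`,
`L i` nef and isotropic, decide the conjecture for all manifolds of the deformation type, such that

* `M i` is an arbitrarily small deformation of `M₀` along which `h` stays ample, and the ray of `L i`
  is arbitrarily close to the ray of `v₀`;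
* `M i` has Picard number two, no MBM class is of type `(1,1)` on `M i`, and the Kähler cone of `M i` is
  a component of the positive cone (`Good`).

The same holds for arbitrary (not necessarily projective) `M₀` without the condition on `h`.
-/

set_option autoImplicit false

universe u

namespace Pool.Agent.Results.MP_a405d2_ag.PolarisedDeformations

open Pool.Agent.Q50.HK Pool.Agent.Q50.HK.Moduli Pool.Agent.Q34.HF Pool.Agent.H904.PD

variable {n : ℕ}

/-- `M` is `Good`, the class `h` is Kähler on `M`, and `(M, l)` is near a point of the open set `U`: the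
period of `M` is spanned by `a` and `b`, with `(a, b, c l) ∈ U` for some `c > 0`. -/
def NearPolarised (T : Moduli.{u} n) (h : V n) (U : Set (V n × V n × V n)) (M : T.Mk) (l : V n) :
    Prop :=
  Good T M ∧ h ∈ T.kahler M ∧ ∃ (a b : V n) (c : ℝ), 0 < c ∧ (a, b, c • l) ∈ U ∧
    T.period M = Submodule.span ℝ {a, b}

/-- `M` is `Good`, and `(M, l)` is near a point of the open set `U`: the period of `M` is spanned by `a`
and `b`, `x` is a Kähler class of `M`, with `(a, b, x, c l) ∈ U` for some `c > 0`. -/
def Near (T : Moduli.{u} n) (U : Set (V n × V n × V n × V n)) (M : T.Mk) (l : V n) : Prop :=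
  Good T M ∧ ∃ (a b x : V n) (c : ℝ), 0 < c ∧ (a, b, x, c • l) ∈ U ∧
    T.period M = Submodule.span ℝ {a, b} ∧ x ∈ T.kahler M

theorem result (T : Fibrations.{u} n) (hT : T.Facts) (hn : 5 ≤ n) :
    -- (0) every manifold has real isotropic classes of type `(1,1)`
    (∀ (M₀ : T.Mk), ∀ x₀ ∈ T.kahler M₀, ∃ v₀, T.Orth (T.period M₀) v₀ ∧ T.B v₀ v₀ = 0 ∧
      0 < T.B x₀ v₀) ∧
    -- (1) polarised manifolds
    (∀ (M₀ : T.Mk) (h a₀ b₀ v₀ : V n), IsInt h → h ∈ T.kahler M₀ →
      T.period M₀ = Submodule.span ℝ {a₀, b₀} →
      T.Orth (T.period M₀) v₀ → T.B v₀ v₀ = 0 → 0 < T.B h v₀ →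
      ∀ U : Set (V n × V n × V n), IsOpen U → (a₀, b₀, v₀) ∈ U →
        T.FinitelyManyDecide (NearPolarised T.toModuli h U) ∧
        ((∀ M l, T.NefIsotropic M l → T.SYZ M l) ↔
          ∀ M l, NearPolarised T.toModuli h U M l → T.NefIsotropic M l → T.SYZ M l)) ∧
    -- (2) arbitrary manifolds
    (∀ (M₀ : T.Mk) (x₀ a₀ b₀ v₀ : V n), x₀ ∈ T.kahler M₀ →
      T.period M₀ = Submodule.span ℝ {a₀, b₀} →
      T.Orth (T.period M₀) v₀ → T.B v₀ v₀ = 0 → 0 < T.B x₀ v₀ →
      ∀ U : Set (V n × V n × V n × V n), IsOpen U → (a₀, b₀, x₀, v₀) ∈ U →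
        T.FinitelyManyDecide (Near T.toModuli U) ∧
        ((∀ M l, T.NefIsotropic M l → T.SYZ M l) ↔
          ∀ M l, Near T.toModuli U M l → T.NefIsotropic M l → T.SYZ M l)) := by
  refine ⟨fun M₀ x₀ hx => ?_, fun M₀ h a₀ b₀ v₀ hh hhM hab hv hvv hhv U hU habU => ?_,
    fun M₀ x₀ a₀ b₀ v₀ hxM hab hv hvv hxv U hU habU => ?_⟩
  · have hF : T.toModuli.Facts := hT.toFacts
    obtain ⟨hP2, hPp⟩ := hF.period M₀
    obtain ⟨⟨hxP, hxx, -⟩, -⟩ := hF.kahler M₀ x₀ hx
    exact exists_real hF (by omega) hP2 hPp hxP hxx
  · have h1 : T.FinitelyManyDecide (NearPolarised T.toModuli h U) :=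
      polarised hT hn hh hhM hab hv hvv hhv hU habU
    exact ⟨h1, iff_of_decide h1⟩
  · have h1 : T.FinitelyManyDecide (Near T.toModuli U) := arbitrary hT hn hxM hab hv hvv hxv hU habU
    exact ⟨h1, iff_of_decide h1⟩

end Pool.Agent.Results.MP_a405d2_ag.PolarisedDeformations
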